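import Pool.Agent.Lib.MP_bcfefa_nt.P.Lf
import Pool.Agent.Lib.MP_bcfefa_nt.B.Main
import Pool.Agent.Lib.MP_bcfefa_nt.WFin

/-!
Eigenforms of level `p` with `a_p ^ 2 ≠ p ^ (k - 2)` have nonzero central value when `4 ∣ k`.
-/

set_option autoImplicit false

noncomputable section

namespace Pool.Agent.Lib.MP_bcfefa_nt.P

open Finset CongruenceSubgroup UpperHalfPlane Pool.Agent.Lib.MP_88d29b_nt.G
open scoped MatrixGroups ModularForm Manifold

lemma qs_coe {Γ : Subgroup (GL (Fin 2) ℝ)} [Γ.IsArithmetic] {k : ℤ} (f : CuspForm Γ k)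
    (h1 : (1 : ℝ) ∈ Γ.strictPeriods) : QS f fun n => (qExpansion 1 f).coeff n := by
  intro z
  have h2 := ModularForm.hasSum_qExpansion f (h := 1) one_pos h1 z
  have e : ∀ m : ℕ, Function.Periodic.qParam 1 (z : ℂ) ^ m =
      Complex.exp (2 * Real.pi * Complex.I * m * z) := by
    intro m
    rw [Function.Periodic.qParam, ← Complex.exp_nat_mul]
    congr 1
    push_cast
    ring
  simp only [e] at h2
  exact h2

lemma qs_Gamma0 {N : ℕ} [NeZero N] {k : ℤ} (f : CuspForm (Gamma0 N) k) :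
    QS f fun n => (qExpansion 1 f).coeff n := by
  refine qs_coe f ?_
  rw [strictPeriods_Gamma0]
  exact AddSubgroup.mem_zmultiples 1

/-- The level one theorem. -/
theorem level_one {k : ℤ} (hk : 0 < k) (h4 : 4 ∣ k) (f : CuspForm 𝒮ℒ k) (hf : f ≠ 0)
    (heig : ∀ p : ℕ, p.Prime → ∃ x : ℂ, ∀ n : ℕ,
      (qExpansion 1 f).coeff (p * n) +
        (if p ∣ n then (p : ℂ) ^ (k - 1) * (qExpansion 1 f).coeff (n / p) else 0) =
          x * (qExpansion 1 f).coeff n) :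
    ModularForm.L hk f (k / 2) ≠ 0 :=
  B.main (fun _ he h0 => W.inj he h0) hk h4 f hf heig

theorem core {p : ℕ} [NeZero p] (hp : p.Prime) {k : ℤ} (hk : 0 < k) (h4 : 4 ∣ k)
    (f : CuspForm (Gamma0 p) k) (h1 : (qExpansion 1 f).coeff 1 = 1)
    (hT : ∀ l : ℕ, l.Prime → l ≠ p → ∃ x : ℂ, ∀ n : ℕ, (qExpansion 1 f).coeff (l * n) +
      (if l ∣ n then (l : ℂ) ^ (k - 1) * (qExpansion 1 f).coeff (n / l) else 0) =
        x * (qExpansion 1 f).coeff n)
    (hU : ∃ x : ℂ, ∀ n : ℕ, (qExpansion 1 f).coeff (p * n) = x * (qExpansion 1 f).coeff n)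
    (hne : (qExpansion 1 f).coeff p ^ 2 ≠ (p : ℂ) ^ (k - 2)) :
    ModularForm.L hk f (k / 2) ≠ 0 := by
  obtain ⟨α, hU⟩ := hU
  have hα : (qExpansion 1 f).coeff p = α := by simpa [h1] using hU 1
  rw [hα] at hne
  have hD : α ^ 2 - (p : ℂ) ^ (k - 2) ≠ 0 := sub_ne_zero.mpr hne
  have hp0 : (p : ℂ) ≠ 0 := by exact_mod_cast hp.ne_zero
  have ha := qs_Gamma0 f
  obtain ⟨g, hg, hfg⟩ := exists_trace hp (isCF_coe f) ha hU
  have hb : QS g fun n => (qExpansion 1 (toSL hg)).coeff n :=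
    qs_coe (toSL hg) one_mem_strictPeriods_SL
  have h0 : (qExpansion 1 (toSL hg)).coeff 0 = 0 := by
    obtain ⟨m, rfl⟩ := Int.eq_ofNat_of_zero_le hk.le
    exact (B.isM_coe_cusp (toSL hg)).2
  have hab : ∀ n : ℕ, (α ^ 2 - (p : ℂ) ^ (k - 2)) * (qExpansion 1 f).coeff n =
      α * (qExpansion 1 (toSL hg)).coeff n - (p : ℂ) ^ (k - 1) *
        if p ∣ n then (qExpansion 1 (toSL hg)).coeff (n / p) else 0 := by
    intro n
    have h2 := (hb.smul α).add ((hb.dil hp.pos).smul (-(p : ℂ) ^ (k - 1)))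
    have h3 := ha.smul (α ^ 2 - (p : ℂ) ^ (k - 2))
    have e : (α ^ 2 - (p : ℂ) ^ (k - 2)) • (f : ℍ → ℂ) =
        α • g + (-(p : ℂ) ^ (k - 1)) • fun z : ℍ => g (ofComplex (p * z)) := by
      funext z
      simp only [Pi.add_apply, Pi.smul_apply, smul_eq_mul, hfg z]
      ring
    rw [e] at h3
    have h4 := congrFun (h3.unique h2) n
    simp only [Pi.add_apply, Pi.smul_apply, smul_eq_mul] at h4
    rw [h4]
    ring
  have h5 := hab 1
  rw [h1, mul_one, if_neg hp.not_dvd_one, mul_zero, sub_zero] at h5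
  have hα0 : α ≠ 0 := left_ne_zero_of_mul (h5 ▸ hD)
  have hg0 : toSL hg ≠ 0 := fun hz => by
    rw [hz] at h5
    have hq : QS (0 : ℍ → ℂ) fun n => (qExpansion 1 (0 : CuspForm 𝒮ℒ k)).coeff n :=
      qs_coe (0 : CuspForm 𝒮ℒ k) one_mem_strictPeriods_SL
    rw [congrFun (hq.unique qs_zero) 1, Pi.zero_apply, mul_zero] at h5
    exact hD h5
  have hL := level_one hk h4 (toSL hg) hg0 fun l hl => by
    by_cases hlp : l = p
    · subst hlp
      exact ⟨_, seq_U hp.pos hα0 hab hU⟩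
    · obtain ⟨x, hx⟩ := hT l hl hlp
      exact ⟨x, seq_T hp hα0 h0 hab hl hlp hx⟩
  intro hz
  have h6 := L_old hk f (toSL hg) hfg (k / 2)
  rw [hz, mul_zero] at h6
  have h7 := sub_eq_zero.mp ((mul_eq_zero.mp h6.symm).resolve_right hL)
  apply hne
  have h8 : ((p : ℂ) ^ (-((k : ℂ) / 2))) ^ 2 = (p : ℂ) ^ (-k) := by
    rw [← Complex.cpow_nat_mul, ← Complex.cpow_intCast]
    congr 1
    push_cast
    ring
  rw [h7, mul_pow, h8, ← zpow_natCast, ← zpow_mul, ← zpow_add₀ hp0]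
  congr 1
  push_cast
  ring

end Pool.Agent.Lib.MP_bcfefa_nt.P
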