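import Mathlib

/-!
Normalised Hecke eigenforms on `Gamma0 N` with vanishing central value.
-/

set_option autoImplicit false

open UpperHalfPlane CongruenceSubgroup
open scoped MatrixGroups ModularForm

namespace Pool.Agent.Lib.MP_bcfefa_nt.P

/-- The `n`-th Fourier coefficient at infinity. -/
noncomputable def coef (f : ℍ → ℂ) (n : ℕ) : ℂ := (qExpansion 1 f).coeff n

/-- `f` is normalised and an eigenvector of the Hecke operator of level `N` and weight `k` at
every prime `l` (`T_l` if `l` does not divide `N`, `U_l` if it does). -/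
def IsEig (N : ℕ) (k : ℤ) (f : ℍ → ℂ) : Prop :=
  coef f 1 = 1 ∧ ∀ l : ℕ, l.Prime → ∃ x : ℂ, ∀ n : ℕ,
    coef f (l * n) + (if l ∣ n ∧ ¬ l ∣ N then (l : ℂ) ^ (k - 1) * coef f (n / l) else 0) =
      x * coef f n

/-- Pairs (weight, normalised eigenform of level `N`) with weight positive and divisible by four
and with vanishing central value. -/
def Exc (N : ℕ) [NeZero N] : Set (Σ k : ℤ, CuspForm (Gamma0 N) k) :=
  {x | ∃ hk : 0 < x.1, 4 ∣ x.1 ∧ IsEig N x.1 x.2 ∧ ModularForm.L hk x.2 (x.1 / 2) = 0}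

end Pool.Agent.Lib.MP_bcfefa_nt.P
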