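import Mathlib

/-!
Algebra of coefficient sequences: independence and determination by the values at primes.
-/

set_option autoImplicit false

namespace Pool.Agent.Lib.MP_bcfefa_nt.P

/-- Simultaneous eigenvectors with distinct systems of eigenvalues are independent. -/
theorem indep_of_eig {K V L ι : Type*} [Field K] [AddCommGroup V] [Module K V]
    (T : L → V →ₗ[K] V) (v : ι → V) (χ : ι → L → K) (hv : ∀ i, v i ≠ 0)
    (hχ : Function.Injective χ) (hT : ∀ i l, T l (v i) = χ i l • v i) :
    LinearIndependent K v := by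
  classical
  rw [linearIndependent_iff']
  intro s
  induction s using Finset.induction_on with
  | empty => intro g _ i hi; simp at hi
  | insert j s hj ih =>
    intro g hg
    rw [Finset.sum_insert hj] at hg
    have h1 : ∀ i ∈ s, g i = 0 := by
      intro i hi
      have hne : χ i ≠ χ j := fun h => hj (hχ h ▸ hi)
      obtain ⟨l, hl⟩ := Function.ne_iff.mp hne
      have h2 := congrArg (T l) hg
      rw [map_add, map_smul, map_sum, map_zero, hT] at h2
      simp only [map_smul, hT] at h2
      have h3 : ∑ i ∈ s, (g i * (χ i l - χ j l)) • v i = 0 := by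
        have e : ∑ i ∈ s, (g i * (χ i l - χ j l)) • v i =
            ∑ i ∈ s, g i • χ i l • v i - χ j l • ∑ i ∈ s, g i • v i := by
          rw [Finset.smul_sum, ← Finset.sum_sub_distrib]
          refine Finset.sum_congr rfl fun i _ => ?_
          rw [smul_smul, smul_smul, ← sub_smul]
          congr 1
          ring
        rw [e, eq_neg_of_add_eq_zero_right h2, eq_neg_of_add_eq_zero_right hg, smul_neg,
          smul_comm, sub_self]
      have h4 := ih _ h3 i hi
      exact (mul_eq_zero.mp h4).resolve_right (sub_ne_zero.mpr hl)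
    have h5 : ∑ i ∈ s, g i • v i = 0 :=
      Finset.sum_eq_zero fun i hi => by rw [h1 i hi, zero_smul]
    rw [h5, add_zero] at hg
    intro i hi
    rcases Finset.mem_insert.mp hi with rfl | hi
    · exact (smul_eq_zero.mp hg).resolve_right (hv _)
    · exact h1 i hi

/-- The Hecke operator on sequences. -/
noncomputable def TS (N : ℕ) (k : ℤ) (l : ℕ) : (ℕ → ℂ) →ₗ[ℂ] (ℕ → ℂ) where
  toFun a n := a (l * n) + (if l ∣ n ∧ ¬ l ∣ N then (l : ℂ) ^ (k - 1) * a (n / l) else 0)
  map_add' a b := by
    funext n
    simp only [Pi.add_apply]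
    split_ifs <;> ring
  map_smul' c a := by
    funext n
    simp only [Pi.smul_apply, smul_eq_mul, RingHom.id_apply]
    split_ifs <;> ring

lemma TS_apply (N : ℕ) (k : ℤ) (l : ℕ) (a : ℕ → ℂ) (n : ℕ) : TS N k l a n =
    a (l * n) + (if l ∣ n ∧ ¬ l ∣ N then (l : ℂ) ^ (k - 1) * a (n / l) else 0) := rfl

lemma eig_val {N : ℕ} {k : ℤ} {l : ℕ} (hl : l.Prime) {a : ℕ → ℂ} (h1 : a 1 = 1) {x : ℂ}
    (h : ∀ n, TS N k l a n = x * a n) : x = a l := by
  have h2 := h 1
  rw [TS_apply, if_neg (fun h => hl.one_lt.ne' (Nat.dvd_one.mp h.1)), h1, mul_one] at h2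
  simpa using h2.symm

/-- A normalised eigensequence is determined by its values at primes. -/
theorem eig_ext {N : ℕ} {k : ℤ} {a b : ℕ → ℂ} (h0 : a 0 = b 0) (h1 : a 1 = b 1)
    (ha : ∀ l : ℕ, l.Prime → ∀ n, TS N k l a n = a l * a n)
    (hb : ∀ l : ℕ, l.Prime → ∀ n, TS N k l b n = b l * b n)
    (hp : ∀ l : ℕ, l.Prime → a l = b l) : a = b := by
  funext n
  induction n using Nat.strong_induction_on with
  | _ n ih =>
    rcases Nat.lt_or_ge n 2 with hn | hn
    · interval_cases n
      · exact h0
      · exact h1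
    · have hl : n.minFac.Prime := Nat.minFac_prime (by omega)
      obtain ⟨m, hm⟩ := Nat.minFac_dvd n
      set l := n.minFac
      have h2 := hl.two_le
      have hm0 : 0 < m := by
        rcases Nat.eq_zero_or_pos m with rfl | h
        · omega
        · exact h
      have hmn : m < n := by nlinarith
      have e1 := ha l hl m
      have e2 := hb l hl m
      rw [TS_apply, ← hm] at e1 e2
      rw [ih m hmn, ih (m / l) (lt_of_le_of_lt (Nat.div_le_self _ _) hmn), hp l hl] at e1
      linear_combination e1 - e2

end Pool.Agent.Lib.MP_bcfefa_nt.P
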