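import Pool.Agent.Lib.MP_bcfefa_nt.P.Defs
import Pool.Agent.Lib.MP_bcfefa_nt.P.Seq
import Pool.Agent.Lib.MP_88d29b_nt.GSturm

/-!
Finitely many normalised eigenforms in each weight; the slope of a form with `a_p ^ 2 = p ^ (k-2)`.
-/

set_option autoImplicit false

open UpperHalfPlane CongruenceSubgroup
open scoped MatrixGroups ModularForm

namespace Pool.Agent.Lib.MP_bcfefa_nt.P

open Pool.Agent.Lib.MP_88d29b_nt.G (QS)

lemma one_mem_per (N : ℕ) [NeZero N] :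
    (1 : ℝ) ∈ (Gamma0 N : Subgroup (GL (Fin 2) ℝ)).strictPeriods := by
  rw [strictPeriods_Gamma0]
  exact AddSubgroup.mem_zmultiples 1

lemma qs_gen {Γ : Subgroup (GL (Fin 2) ℝ)} [Γ.IsArithmetic] {k : ℤ}
    (h1 : (1 : ℝ) ∈ Γ.strictPeriods) (f : CuspForm Γ k) : QS f (coef f) := by
  intro z
  have h2 := ModularForm.hasSum_qExpansion f (h := 1) one_pos h1 z
  have e : ∀ m : ℕ, Function.Periodic.qParam 1 (z : ℂ) ^ m =
      Complex.exp (2 * Real.pi * Complex.I * m * z) := by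
    intro m
    rw [Function.Periodic.qParam, ← Complex.exp_nat_mul]
    congr 1
    push_cast
    ring
  simp only [e] at h2
  exact h2

lemma coef_zero {Γ : Subgroup (GL (Fin 2) ℝ)} [Γ.IsArithmetic] {k : ℤ}
    (h1 : (1 : ℝ) ∈ Γ.strictPeriods) (f : CuspForm Γ k) : coef f 0 = 0 :=
  CuspFormClass.qExpansion_coeff_zero f one_pos h1

/-- The coefficient map is linear. -/
noncomputable def coefL (N : ℕ) [NeZero N] (k : ℤ) : CuspForm (Gamma0 N) k →ₗ[ℂ] (ℕ → ℂ) where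
  toFun f := coef f
  map_add' f g := (qs_gen (one_mem_per N) (f + g)).unique
    ((qs_gen (one_mem_per N) f).add (qs_gen (one_mem_per N) g))
  map_smul' c f := (qs_gen (one_mem_per N) (c • f)).unique ((qs_gen (one_mem_per N) f).smul c)

lemma coef_inj {N : ℕ} [NeZero N] {k : ℤ} {f g : CuspForm (Gamma0 N) k} (h : coef f = coef g) :
    f = g := by
  ext z
  have h1 := qs_gen (one_mem_per N) f z
  rw [h] at h1
  exact h1.unique (qs_gen (one_mem_per N) g z)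

lemma IsEig.ts {N : ℕ} {k : ℤ} {f : ℍ → ℂ} (h : IsEig N k f) (l : ℕ) (hl : l.Prime) (n : ℕ) :
    TS N k l (coef f) n = coef f l * coef f n := by
  obtain ⟨x, hx⟩ := h.2 l hl
  rw [← eig_val hl h.1 (N := N) (k := k) hx]
  exact hx n

theorem finite_eig (N : ℕ) [NeZero N] {k : ℤ} (hk : 0 < k) :
    {f : CuspForm (Gamma0 N) k | IsEig N k f}.Finite := by
  obtain ⟨k, rfl⟩ := Int.eq_ofNat_of_zero_le hk.le
  haveI := Pool.Agent.Lib.MP_88d29b_nt.G.finite_cusp N k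
  have h1 : LinearIndependent ℂ
      (fun f : {f : CuspForm (Gamma0 N) (k : ℤ) | IsEig N k f} => coefL N k f.1) := by
    refine indep_of_eig (L := Nat.Primes) (fun l => TS N k l.1) _ (fun f l => coef f.1 l.1)
      ?_ ?_ ?_
    · intro f hf
      have h2 : coef f.1 1 = 0 := congrFun hf 1
      rw [f.2.1] at h2
      exact one_ne_zero h2
    · intro f g hfg
      refine Subtype.ext (coef_inj (eig_ext (N := N) (k := k) ?_ ?_ f.2.ts g.2.ts ?_))
      · rw [coef_zero (one_mem_per N), coef_zero (one_mem_per N)]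
      · rw [f.2.1, g.2.1]
      · exact fun l hl => congrFun hfg ⟨l, hl⟩
    · intro f l
      funext n
      exact f.2.ts l.1 l.2 n
  have h2 := LinearIndependent.of_comp (coefL N k) h1
  exact h2.set_finite_of_isNoetherian

lemma norm_p (p : ℕ) [Fact p.Prime] : ‖(p : ℂ_[p])‖ = (p : ℝ)⁻¹ := by
  have h := PadicComplex.norm_extends' p (p : ℚ_[p])
  rw [Padic.norm_p] at h
  rw [← h]
  congr 1
  simp

theorem slope_bound {p : ℕ} [Fact p.Prime] (ι : ℂ →+* ℂ_[p]) {h : ℝ} {k : ℤ} {α : ℂ}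
    (h1 : α ^ 2 = (p : ℂ) ^ (k - 2)) (h2 : (p : ℝ) ^ (-h) ≤ ‖ι α‖) : (k : ℝ) ≤ 2 * h + 2 := by
  have hp : (1 : ℝ) < p := by exact_mod_cast (Fact.out : p.Prime).one_lt
  have hp0 : (0 : ℝ) < p := by linarith
  have e : ‖ι α‖ ^ 2 = (p : ℝ) ^ (-((k : ℝ) - 2)) := by
    rw [← norm_pow, ← map_pow, h1, map_zpow₀, map_natCast, norm_zpow, norm_p, inv_zpow',
      ← Real.rpow_intCast]
    push_cast
    rfl
  have h3 : ((p : ℝ) ^ (-h)) ^ 2 ≤ ‖ι α‖ ^ 2 := pow_le_pow_left₀ (by positivity) h2 2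
  rw [e, ← Real.rpow_natCast, ← Real.rpow_mul hp0.le, Real.rpow_le_rpow_left_iff hp] at h3
  push_cast at h3
  linarith

theorem finite_pairs (N : ℕ) [NeZero N] (B : ℝ) :
    {x : Σ k : ℤ, CuspForm (Gamma0 N) k | 0 < x.1 ∧ (x.1 : ℝ) ≤ B ∧ IsEig N x.1 x.2}.Finite := by
  have h1 : (⋃ k ∈ Set.Ioc (0 : ℤ) ⌊B⌋,
      (Sigma.mk (β := fun k : ℤ => CuspForm (Gamma0 N) k) k) ''
        {f : CuspForm (Gamma0 N) k | IsEig N k f}).Finite :=
    (Set.finite_Ioc _ _).biUnion fun k hk => (finite_eig N hk.1).image _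
  refine h1.subset ?_
  rintro ⟨k, f⟩ ⟨h2, h3, h4⟩
  simp only [Set.mem_iUnion]
  exact ⟨k, ⟨h2, Int.le_floor.mpr h3⟩, f, h4, rfl⟩

end Pool.Agent.Lib.MP_bcfefa_nt.P
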