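import Pool.Agent.Lib.MP_bcfefa_nt.B.Main
import Pool.Agent.Lib.MP_bcfefa_nt.WFin

set_option autoImplicit false

open UpperHalfPlane
open scoped MatrixGroups ModularForm

namespace Pool.Agent.Results.MP_bcfefa_nt.LevelOneCentral

theorem result (k : ℤ) (hk : 0 < k) (h4 : 4 ∣ k) (f : CuspForm 𝒮ℒ k) (hf : f ≠ 0)
    (heig : ∀ p : ℕ, p.Prime → ∃ x : ℂ, ∀ n : ℕ,
      (qExpansion 1 f).coeff (p * n) +
        (if p ∣ n then (p : ℂ) ^ (k - 1) * (qExpansion 1 f).coeff (n / p) else 0) =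
          x * (qExpansion 1 f).coeff n) :
    ModularForm.L hk f (k / 2) ≠ 0 :=
  Pool.Agent.Lib.MP_bcfefa_nt.B.main (fun _ he h0 => Pool.Agent.Lib.MP_bcfefa_nt.W.inj he h0)
    hk h4 f hf heig

end Pool.Agent.Results.MP_bcfefa_nt.LevelOneCentral
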