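import Pool.Agent.Lib.MP_bcfefa_nt.P.Tr

/-!
The `L`-function and the coefficients of a combination of `g (z)` and `g (p z)`.
-/

set_option autoImplicit false

noncomputable section

namespace Pool.Agent.Lib.MP_bcfefa_nt.P

open Finset CongruenceSubgroup UpperHalfPlane Pool.Agent.Lib.MP_88d29b_nt.G
open scoped MatrixGroups ModularForm Manifold

theorem L_old {p : ℕ} [NeZero p] {k : ℤ} (hk : 0 < k) (f : CuspForm (Gamma0 p) k)
    (g : CuspForm 𝒮ℒ k) {D A B : ℂ}
    (h : ∀ z : ℍ, D * f z = A * g z - B * g (ofComplex (p * z))) (s : ℂ) :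
    D * ModularForm.L hk f s = (A - B * (p : ℂ) ^ (-s)) * ModularForm.L hk g s := by
  have hp : (0 : ℝ) < p := by exact_mod_cast NeZero.pos p
  have hg : MellinConvergent (fun t : ℝ => g (ofComplex (Complex.I * t))) s :=
    ((CuspForm.isStrongFEPair hk g).hasMellin s).1
  have h1 := (hasMellin_sub (hg.const_smul A)
    (((MellinConvergent.comp_mul_left hp).mpr hg).const_smul B)).2
  rw [mellin_const_smul, mellin_const_smul,
    mellin_comp_mul_left (fun t : ℝ => g (ofComplex (Complex.I * t))) s hp] at h1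
  have h2 : mellin (fun t : ℝ => D • f (ofComplex (Complex.I * t))) s =
      mellin (fun t : ℝ => A • g (ofComplex (Complex.I * t)) -
        B • g (ofComplex (Complex.I * ((p : ℝ) * t : ℝ)))) s := by
    refine MeasureTheory.setIntegral_congr_fun measurableSet_Ioi fun t (ht : 0 < t) => ?_
    have e : ((ofComplex (Complex.I * t) : ℍ) : ℂ) = Complex.I * t := by
      rw [ofComplex_apply_of_im_pos (by simpa)]
    simp only [smul_eq_mul, h, e]
    congr 5
    push_cast
    ring
  rw [mellin_const_smul, h1] at h2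
  simp only [smul_eq_mul, Complex.ofReal_natCast] at h2
  rw [ModularForm.L, ModularForm.L, CuspForm.Λ_eq_mellin, CuspForm.Λ_eq_mellin, ← mul_assoc, h2]
  ring

variable {p : ℕ} {α c : ℂ}

/-- `α - c V_p` is injective on sequences without constant term. -/
lemma seq_zero (hp : 1 < p) (hα : α ≠ 0) {u : ℕ → ℂ} (h0 : u 0 = 0)
    (h : ∀ n, α * u n = c * if p ∣ n then u (n / p) else 0) (n : ℕ) : u n = 0 := by
  induction n using Nat.strong_induction_on with
  | _ n ih =>
    rcases Nat.eq_zero_or_pos n with rfl | hn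
    · exact h0
    · have h1 := h n
      rw [ih (n / p) (Nat.div_lt_self hn hp), ite_self, mul_zero] at h1
      exact (mul_eq_zero.mp h1).resolve_left hα

/-- The Hecke relation at `l ≠ p` passes from `D a = α b - c V_p b` to `b`. -/
lemma seq_T (hp : p.Prime) (hα : α ≠ 0) {a b : ℕ → ℂ} {D : ℂ} (h0 : b 0 = 0)
    (h : ∀ n, D * a n = α * b n - c * if p ∣ n then b (n / p) else 0) {l : ℕ} (hl : l.Prime)
    (hlp : l ≠ p) {e x : ℂ}
    (hT : ∀ n, a (l * n) + (if l ∣ n then e * a (n / l) else 0) = x * a n) (n : ℕ) :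
    b (l * n) + (if l ∣ n then e * b (n / l) else 0) = x * b n := by
  have hc : p.Coprime l := (Nat.coprime_primes hp hl).mpr hlp.symm
  rw [← sub_eq_zero]
  refine seq_zero (c := c) hp.one_lt hα
    (u := fun n => b (l * n) + (if l ∣ n then e * b (n / l) else 0) - x * b n) (by simp [h0])
    (fun n => ?_) n
  have h1 := h (l * n)
  have h2 := h n
  have h3 := h (n / l)
  have h4 := hT n
  by_cases hpn : p ∣ n
  · obtain ⟨m, rfl⟩ := hpn
    rw [if_pos (Dvd.intro _ rfl), Nat.mul_div_cancel_left _ hp.pos] at h2 ⊢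
    rw [if_pos (Dvd.dvd.mul_left (Dvd.intro _ rfl) l), mul_left_comm l,
      Nat.mul_div_cancel_left _ hp.pos, mul_left_comm p] at h1
    by_cases hlm : l ∣ m
    · obtain ⟨r, rfl⟩ := hlm
      rw [mul_left_comm p l r, Nat.mul_div_cancel_left _ hl.pos, if_pos (Dvd.intro _ rfl),
        Nat.mul_div_cancel_left _ hp.pos] at h3
      rw [if_pos (Dvd.dvd.mul_left (Dvd.intro _ rfl) p), mul_left_comm p l r,
        Nat.mul_div_cancel_left _ hl.pos] at h4 ⊢
      rw [mul_left_comm p l r] at h1 h2
      rw [if_pos (Dvd.intro _ rfl), Nat.mul_div_cancel_left _ hl.pos]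
      linear_combination D * h4 - h1 - e * h3 + x * h2
    · have hn : ¬ l ∣ p * m := fun hd => hlm (hc.symm.dvd_of_dvd_mul_left hd)
      rw [if_neg hn] at h4 ⊢
      rw [if_neg hlm]
      linear_combination D * h4 - h1 + x * h2
  · rw [if_neg hpn] at h2 ⊢
    rw [if_neg fun hd => hpn (hc.dvd_of_dvd_mul_left hd)] at h1
    by_cases hln : l ∣ n
    · rw [if_neg fun hd => hpn (hd.trans (Nat.div_dvd_of_dvd hln))] at h3
      rw [if_pos hln] at h4 ⊢
      linear_combination D * h4 - h1 - e * h3 + x * h2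
    · rw [if_neg hln] at h4 ⊢
      linear_combination D * h4 - h1 + x * h2

/-- The relation `U_p a = α a` is the Hecke relation at `p` for `b`. -/
lemma seq_U (hp : 0 < p) (hα : α ≠ 0) {a b : ℕ → ℂ} {D : ℂ}
    (h : ∀ n, D * a n = α * b n - c * if p ∣ n then b (n / p) else 0)
    (hU : ∀ n, a (p * n) = α * a n) (n : ℕ) :
    b (p * n) + (if p ∣ n then c * b (n / p) else 0) = (α + c / α) * b n := by
  have h1 := h (p * n)
  have h2 := h n
  rw [if_pos (Dvd.intro _ rfl), Nat.mul_div_cancel_left _ hp, hU] at h1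
  refine mul_left_cancel₀ hα ?_
  have e : α * (c / α) = c := mul_div_cancel₀ c hα
  split_ifs at h2 ⊢
  · linear_combination α * h2 - h1 - b n * e
  · linear_combination α * h2 - h1 - b n * e

end Pool.Agent.Lib.MP_bcfefa_nt.P
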