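import Pool.Agent.Lib.MP_bcfefa_nt.P.Core

/-!
Finite slope eigenforms of level `p ^ r` have level `p`.
-/

set_option autoImplicit false

noncomputable section

namespace Pool.Agent.Lib.MP_bcfefa_nt.P

open Finset CongruenceSubgroup UpperHalfPlane Pool.Agent.Lib.MP_88d29b_nt.G
open scoped MatrixGroups ModularForm Manifold

lemma cov_low {p M : ℕ} (hp : p.Prime) (hM : p ∣ M) :
    Cov (Gamma0 (p * M)) (Gamma0 M) fun j : Fin p => tRep p (some j) where
  det_ne i := by
    rw [det_tRep]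
    exact_mod_cast hp.ne_zero
  ex g hg i := by
    obtain ⟨j, t, -, ht⟩ := tRep_decomp (N := 1) hp (Nat.coprime_one_right p)
      (tRep p (some i) * (g : Mat)) (by rw [Matrix.det_mul, det_tRep, g.det_coe, mul_one]) (by simp)
    rw [mem_Gamma0_iff] at hg
    have e0 := congrFun (congrFun ht 0) 0
    have e1 := congrFun (congrFun ht 1) 0
    cases j with
    | none =>
      exfalso
      have hdet := g.det_coe
      rw [Matrix.det_fin_two] at hdet
      simp [tRep, Matrix.mul_apply, Fin.sum_univ_two] at e0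
      obtain ⟨c, hc⟩ := (Int.natCast_dvd_natCast.mpr hM).trans hg
      refine (Nat.prime_iff_prime_int.mp hp).not_dvd_one
        ⟨(t.1 0 0 - i * c) * g.1 1 1 - g.1 0 1 * c, ?_⟩
      linear_combination -hdet + g.1 1 1 * e0 - (i * g.1 1 1 + g.1 0 1) * hc
    | some j =>
      refine ⟨j, t, ?_, ht⟩
      rw [mem_Gamma0_iff]
      simp [tRep, Matrix.mul_apply, Fin.sum_univ_two] at e1
      rw [← e1]
      push_cast
      exact mul_dvd_mul_left _ hg
  inj i j t _ h := Option.some_injective _ (tRep_inj hp _ _ t h)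

variable {p : ℕ} {k : ℤ} {f : ℍ → ℂ} {a : ℕ → ℂ} {α : ℂ}

theorem isCF_low (hp : p.Prime) (ha : QS f a) (hU : ∀ n, a (p * n) = α * a n) (hα : α ≠ 0)
    (r : ℕ) (hf : IsCF (Gamma0 (p ^ (r + 1))) k f) : IsCF (Gamma0 p) k f := by
  have hU' : ∑ j : Fin p, sl k f (tRep p (some j)) = α • f := by
    funext z
    have h1 := qs_U hp.pos k ha z
    simp only [hU] at h1
    exact h1.unique (ha.smul α z)
  induction r with
  | zero => simpa using hf
  | succ r ih =>
    rw [pow_succ'] at hf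
    have h := (hf.dc (cov_low hp (dvd_pow_self p r.succ_ne_zero))).smul α⁻¹
    rw [hU', smul_smul, inv_mul_cancel₀ hα, one_smul] at h
    exact ih h

/-- The `L`-function only depends on the function on the upper half plane. -/
lemma L_congr {Γ Γ' : Subgroup (GL (Fin 2) ℝ)} [Γ.IsArithmetic] [Γ'.IsArithmetic] (hk : 0 < k)
    (f : CuspForm Γ k) (g : CuspForm Γ' k) (h : (f : ℍ → ℂ) = g) (s : ℂ) :
    ModularForm.L hk f s = ModularForm.L hk g s := by
  rw [ModularForm.L, ModularForm.L, CuspForm.Λ_eq_mellin, CuspForm.Λ_eq_mellin, h]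

theorem core_pow {N r : ℕ} [NeZero N] (hp : p.Prime) (hN : N = p ^ (r + 1)) (hk : 0 < k)
    (h4 : 4 ∣ k) (f : CuspForm (Gamma0 N) k) (h1 : (qExpansion 1 f).coeff 1 = 1)
    (hT : ∀ l : ℕ, l.Prime → l ≠ p → ∃ x : ℂ, ∀ n : ℕ, (qExpansion 1 f).coeff (l * n) +
      (if l ∣ n then (l : ℂ) ^ (k - 1) * (qExpansion 1 f).coeff (n / l) else 0) =
        x * (qExpansion 1 f).coeff n)
    (hU : ∃ x : ℂ, ∀ n : ℕ, (qExpansion 1 f).coeff (p * n) = x * (qExpansion 1 f).coeff n)
    (h0 : (qExpansion 1 f).coeff p ≠ 0)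
    (hne : (qExpansion 1 f).coeff p ^ 2 ≠ (p : ℂ) ^ (k - 2)) :
    ModularForm.L hk f (k / 2) ≠ 0 := by
  have : NeZero p := ⟨hp.ne_zero⟩
  subst hN
  obtain ⟨α, hα⟩ := hU
  have e : (qExpansion 1 f).coeff p = α := by simpa [h1] using hα 1
  have hf := isCF_low hp (qs_Gamma0 f) hα (e ▸ h0) r (isCF_coe f)
  rw [L_congr hk f hf.mk' rfl]
  exact core hp hk h4 hf.mk' h1 hT ⟨α, hα⟩ hne

end Pool.Agent.Lib.MP_bcfefa_nt.P
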