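import Pool.Agent.Lib.MP_bcfefa_nt.P.Fin
import Pool.Agent.Lib.MP_bcfefa_nt.P.Low

/-!
Exceptional eigenforms of level a power of `p`.
-/

set_option autoImplicit false

open UpperHalfPlane CongruenceSubgroup
open scoped MatrixGroups ModularForm

namespace Pool.Agent.Lib.MP_bcfefa_nt.P

lemma gamma0_one : (Gamma0 1 : Subgroup (GL (Fin 2) ℝ)) = 𝒮ℒ := by
  have h : Gamma0 1 = ⊤ := by
    ext A
    simp only [Gamma0_mem, Subgroup.mem_top, iff_true]
    exact Subsingleton.elim _ _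
  rw [h, MonoidHom.range_eq_map]

lemma exists_copy {Γ Γ' : Subgroup (GL (Fin 2) ℝ)} (h : Γ = Γ') {k : ℤ} (f : CuspForm Γ k) :
    ∃ g : CuspForm Γ' k, (g : ℍ → ℂ) = f := by
  subst h
  exact ⟨f, rfl⟩

theorem exc_one : Exc 1 = ∅ := by
  rw [Set.eq_empty_iff_forall_notMem]
  rintro ⟨k, f⟩ ⟨hk, h4, he, hL⟩
  obtain ⟨g, hg⟩ := exists_copy gamma0_one f
  refine level_one hk h4 g ?_ ?_ ?_
  · intro h0
    have h1 := he.1
    have h2 : f = 0 := by
      ext z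
      rw [← hg, h0]
      rfl
    rw [h2] at h1
    have h3 := congrFun (map_zero (coefL 1 k)) 1
    exact one_ne_zero (h1.symm.trans h3)
  · intro l hl
    obtain ⟨x, hx⟩ := he.2 l hl
    refine ⟨x, fun n => ?_⟩
    have h1 := hx n
    simp only [hl.not_dvd_one, not_false_eq_true, and_true, coef] at h1
    rw [hg]
    exact h1
  · rw [ModularForm.L, CuspForm.Λ_eq_mellin] at hL ⊢
    rw [hg]
    exact hL

lemma eig_T {p N : ℕ} (hp : p.Prime) {r : ℕ} (hN : N = p ^ r) {k : ℤ} {f : ℍ → ℂ}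
    (he : IsEig N k f) : ∀ l : ℕ, l.Prime → l ≠ p → ∃ x : ℂ, ∀ n : ℕ,
      (qExpansion 1 f).coeff (l * n) +
        (if l ∣ n then (l : ℂ) ^ (k - 1) * (qExpansion 1 f).coeff (n / l) else 0) =
          x * (qExpansion 1 f).coeff n := by
  intro l hl hlp
  obtain ⟨y, hy⟩ := he.2 l hl
  have hnd : ¬ l ∣ N := fun h =>
    hlp ((Nat.prime_dvd_prime_iff_eq hl hp).mp (hl.dvd_of_dvd_pow (hN ▸ h)))
  refine ⟨y, fun n => ?_⟩
  have h1 := hy n
  simp only [hnd, not_false_eq_true, and_true, coef] at h1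
  exact h1

lemma eig_U {p N : ℕ} (hp : p.Prime) (hN : p ∣ N) {k : ℤ} {f : ℍ → ℂ} (he : IsEig N k f) :
    ∃ x : ℂ, ∀ n : ℕ, (qExpansion 1 f).coeff (p * n) = x * (qExpansion 1 f).coeff n := by
  obtain ⟨y, hy⟩ := he.2 p hp
  refine ⟨y, fun n => ?_⟩
  have h1 := hy n
  simp only [hN, not_true_eq_false, and_false, if_false, add_zero, coef] at h1
  exact h1

theorem exc_new {p N r : ℕ} [NeZero N] (hp : p.Prime) (hN : N = p ^ r)
    (x : Σ k : ℤ, CuspForm (Gamma0 N) k) (hx : x ∈ Exc N) :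
    (1 ≤ r ∧ coef x.2 p ^ 2 = (p : ℂ) ^ (x.1 - 2)) ∨ (2 ≤ r ∧ coef x.2 p = 0) := by
  obtain ⟨k, f⟩ := x
  match r, hN with
  | 0, hN =>
    rw [pow_zero] at hN
    subst hN
    rw [exc_one] at hx
    exact hx.elim
  | 1, hN =>
    have hN' : N = p := hN.trans (pow_one p)
    subst hN'
    obtain ⟨hk, h4, he, hL⟩ := hx
    refine Or.inl ⟨le_rfl, ?_⟩
    by_contra hne
    exact core hp hk h4 f he.1 (eig_T hp hN he) (eig_U hp dvd_rfl he) hne hL
  | r + 2, hN =>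
    obtain ⟨hk, h4, he, hL⟩ := hx
    by_cases h0 : coef f p = 0
    · exact Or.inr ⟨by omega, h0⟩
    · refine Or.inl ⟨by omega, ?_⟩
      by_contra hne
      exact core_pow hp hN hk h4 f he.1 (eig_T hp hN he)
        (eig_U hp (hN ▸ dvd_pow_self p (by omega)) he) h0 hne hL

end Pool.Agent.Lib.MP_bcfefa_nt.P
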