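import Pool.Agent.Lib.MP_88d29b_nt.GSturm
import Pool.Agent.Lib.MP_88d29b_nt.GQ2

/-!
The trace to level one of `f | W` for a cusp form `f` of prime level `p`.
-/

set_option autoImplicit false

noncomputable section

namespace Pool.Agent.Lib.MP_bcfefa_nt.P

open Finset CongruenceSubgroup UpperHalfPlane Pool.Agent.Lib.MP_88d29b_nt.G
open scoped MatrixGroups ModularForm Manifold

/-- Representatives of `Γ_0(p) \ Γ_0(p) W SL(2, ℤ)`. -/
def wRep (p : ℕ) : Option (Fin p) → Mat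
  | none => !![0, -1; (p : ℤ), 0]
  | some j => !![1, (j : ℤ); 0, (p : ℤ)]

/-- `wRep p i = wSig i * tRep p i`. -/
def wSig {p : ℕ} : Option (Fin p) → SL(2, ℤ)
  | none => ModularGroup.S
  | some _ => 1

lemma wRep_eq (p : ℕ) (i : Option (Fin p)) : wRep p i = (wSig i : Mat) * tRep p i := by
  cases i
  · ext a b
    fin_cases a <;> fin_cases b <;>
      simp [wRep, wSig, tRep, ModularGroup.S, Matrix.mul_apply, Fin.sum_univ_two]
  · simp [wRep, wSig, tRep]

lemma det_wRep (p : ℕ) (i : Option (Fin p)) : (wRep p i).det = p := by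
  cases i <;> simp [wRep, Matrix.det_fin_two]

lemma wRep_decomp {p : ℕ} (hp : p.Prime) (m : Mat) (hd : m.det = p) (h0 : (p : ℤ) ∣ m 1 0)
    (h1 : (p : ℤ) ∣ m 1 1) : ∃ j, ∃ t ∈ Gamma0 p, m = ((t : SL(2, ℤ)) : Mat) * wRep p j := by
  obtain ⟨j, t, -, ht⟩ := tRep_decomp (N := 1) hp (Nat.coprime_one_right p) m hd (by simp)
  refine ⟨j, t * (wSig j)⁻¹, ?_, ?_⟩
  · rw [mem_Gamma0_iff]
    cases j
    · rw [ht] at h1
      rw [wSig, ModularGroup.S_inv, Matrix.SpecialLinearGroup.coe_mul,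
        Matrix.SpecialLinearGroup.coe_neg, ModularGroup.coe_S]
      simpa [tRep, Matrix.mul_apply, Fin.sum_univ_two] using h1
    · rw [ht] at h0
      simpa [wSig, tRep, Matrix.mul_apply, Fin.sum_univ_two] using h0
  · rw [wRep_eq, ← Matrix.mul_assoc, ← Matrix.SpecialLinearGroup.coe_mul, inv_mul_cancel_right]
    exact ht

lemma cov_wRep {p : ℕ} (hp : p.Prime) : Cov (Gamma0 p) ⊤ (wRep p) where
  det_ne i := by
    rw [det_wRep]
    exact_mod_cast hp.ne_zero
  ex g _ i := by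
    refine wRep_decomp hp _ (by rw [Matrix.det_mul, det_wRep, g.det_coe, mul_one]) ?_ ?_ <;>
      cases i <;> simp [wRep, Matrix.mul_apply, Fin.sum_univ_two]
  inj i j t _ h := by
    refine tRep_inj hp i j ((wSig i)⁻¹ * t * wSig j) ?_
    rw [wRep_eq, wRep_eq] at h
    rw [Matrix.SpecialLinearGroup.coe_mul, Matrix.SpecialLinearGroup.coe_mul, Matrix.mul_assoc,
      Matrix.mul_assoc, ← h, ← Matrix.mul_assoc, ← Matrix.SpecialLinearGroup.coe_mul,
      inv_mul_cancel, Matrix.SpecialLinearGroup.coe_one, Matrix.one_mul]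

variable {p : ℕ} {k : ℤ} {f g : ℍ → ℂ} {a : ℕ → ℂ} {α : ℂ}

lemma sl_dil (hp : 0 < p) (k : ℤ) (f : ℍ → ℂ) :
    sl k f (tRep p none) = (p : ℂ) ^ (k - 1) • fun z : ℍ => f (ofComplex (p * z)) := by
  funext z
  have := sl_upper k f (a := p) (d := 1) 0 (by exact_mod_cast hp) one_pos z
  simpa [tRep] using this

/-- The coefficients of `U_p f`. -/
lemma qs_U (hp : 0 < p) (k : ℤ) (ha : QS f a) :
    QS (∑ j : Fin p, sl k f (tRep p (some j))) fun n => a (p * n) := by
  have h1 := (ha.hecke hp k).add ((ha.dil hp).smul (-(p : ℂ) ^ (k - 1)))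
  rw [heckeFun_eq hp, Fintype.sum_option, sl_dil hp] at h1
  have e1 : ((p : ℂ) ^ (k - 1) • fun z : ℍ => f (ofComplex (p * z))) +
      ∑ j : Fin p, sl k f (tRep p (some j)) + (-(p : ℂ) ^ (k - 1)) • (fun z : ℍ =>
        f (ofComplex (p * z))) = ∑ j : Fin p, sl k f (tRep p (some j)) := by
    funext z
    simp only [Pi.add_apply, Pi.smul_apply, smul_eq_mul]
    ring
  rw [e1] at h1
  refine (funext fun n => ?_ : _ = fun n => a (p * n)) ▸ h1
  simp only [Pi.add_apply, Pi.smul_apply, smul_eq_mul]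
  split_ifs <;> ring

/-- `g = f | W + α f` has level one, and `D f = α g - p ^ (k - 1) g (p z)` with
`D = α ^ 2 - p ^ (k - 2)`. -/
theorem exists_trace (hp : p.Prime) (hf : IsCF (Gamma0 p) k f) (ha : QS f a)
    (hU : ∀ n, a (p * n) = α * a n) : ∃ g, IsCF ⊤ k g ∧ ∀ z : ℍ,
      (α ^ 2 - (p : ℂ) ^ (k - 2)) * f z = α * g z - (p : ℂ) ^ (k - 1) * g (ofComplex (p * z)) := by
  have hp0 : (0 : ℤ) < p := by exact_mod_cast hp.pos
  have hW : 0 < (wRep p none).det := by rwa [det_wRep]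
  have hg := hf.dc (cov_wRep hp)
  have hU' : ∑ j : Fin p, sl k f (wRep p (some j)) = α • f := by
    funext z
    have h1 := qs_U hp.pos k ha z
    have h2 := ha.smul α z
    simp only [hU] at h1
    exact h1.unique h2
  rw [Fintype.sum_option, hU'] at hg
  refine ⟨_, hg, fun z => ?_⟩
  set g := sl k f (wRep p none) + α • f with hgd
  have hWW : sl k (sl k f (wRep p none)) (wRep p none) = (p : ℂ) ^ (k - 2) • f := by
    rw [← sl_mul k f hW.ne' hW.ne']
    have e0 : (p : ℤ) • (1 : Mat) = !![(p : ℤ), 0; 0, (p : ℤ)] := by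
      rw [Matrix.one_fin_two]
      simp
    have e : wRep p none * wRep p none = ((-1 : SL(2, ℤ)) : Mat) * ((p : ℤ) • (1 : Mat)) := by
      rw [e0]
      ext a b
      fin_cases a <;> fin_cases b <;> simp [wRep, Matrix.mul_apply, Fin.sum_univ_two]
    have h1 : sl k f ((-1 : SL(2, ℤ)) : Mat) = f := hf.inv (-1) (neg_one_mem_Gamma0 p)
    rw [e, sl_mul k f (by rw [Matrix.SpecialLinearGroup.det_coe]; exact one_ne_zero)
      (by rw [e0]; simp [hp.ne_zero]), h1, sl_scalar k f hp0, Int.cast_natCast]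
  have h1 : sl k g (wRep p none) = (p : ℂ) ^ (k - 2) • f + α • sl k f (wRep p none) := by
    rw [hgd, sl_add, hWW, sl_smul k α f hW]
  have h2 : sl k g (wRep p none) = (p : ℂ) ^ (k - 1) • fun z : ℍ => g (ofComplex (p * z)) := by
    rw [wRep_eq, sl_mul k g (by simp) (by rw [det_tRep]; exact hp0.ne'), hg.inv _ trivial,
      sl_dil hp.pos]
  have h3 := congrFun (h1.symm.trans h2) z
  have h4 := congrFun hgd z
  simp only [Pi.add_apply, Pi.smul_apply, smul_eq_mul] at h3 h4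
  linear_combination -h3 - α * h4

/-- A cusp form for the full modular group, bundled. -/
def toSL (h : IsCF ⊤ k g) : CuspForm 𝒮ℒ k where
  toFun := g
  slash_action_eq' A hA := by
    obtain ⟨γ, rfl⟩ := hA
    have := h.inv γ trivial
    rwa [sl_SL] at this
  holo' := h.cuspy.holo
  zero_at_cusps' hc := by
    rw [OnePoint.isZeroAt_iff_forall_SL2Z hc]
    intro γ _
    have := h.cuspy.zero γ
    rwa [sl_SL] at this

lemma coe_toSL (h : IsCF ⊤ k g) : ⇑(toSL h) = g := rfl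

end Pool.Agent.Lib.MP_bcfefa_nt.P
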